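import Pool.Agent.Helper63.Sey2.Goals

/-! Packet SEY2-RAM (Ramsey). -/

namespace Pool.Agent.Helper36.Sey2

open Pool.Agent.Helper63.Sey2

theorem ramAux {V : Type} (H : SimpleGraph V) : ∀ (n k a : ℕ) (F : Finset V), k + a = n →
    (∀ T : Finset V, T ⊆ F → (∀ u ∈ T, ∀ v ∈ T, u ≠ v → H.Adj u v) → T.card ≤ k) →
    (k + a).choose a ≤ F.card →
    ∃ I : Finset V, I ⊆ F ∧ (∀ u ∈ I, ∀ v ∈ I, ¬ H.Adj u v) ∧ a + 1 ≤ I.card := by
  classical
  intro n
  induction n with
  | zero =>
    intro k a F hn hT hF
    obtain ⟨rfl, rfl⟩ : k = 0 ∧ a = 0 := by omega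
    have h1 : 1 ≤ F.card := by simpa using hF
    obtain ⟨v, hv⟩ := Finset.card_pos.1 (by omega : 0 < F.card)
    exact ⟨{v}, by simpa using hv, by simp, by simp⟩
  | succ n ih =>
    intro k a F hn hT hF
    rcases Nat.eq_zero_or_pos a with ha | ha
    · subst ha
      have h1 : 1 ≤ F.card := by simpa using hF
      obtain ⟨v, hv⟩ := Finset.card_pos.1 (by omega : 0 < F.card)
      exact ⟨{v}, by simpa using hv, by simp, by simp⟩
    rcases Nat.eq_zero_or_pos k with hk | hk
    · subst hk
      have h1 : 1 ≤ F.card := by simpa using hF
      obtain ⟨v, hv⟩ := Finset.card_pos.1 (by omega : 0 < F.card)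
      have := hT {v} (by simpa using hv) (by
        intro u hu w hw huw
        simp only [Finset.mem_singleton] at hu hw
        exact absurd (hu.trans hw.symm) huw)
      simp at this
    obtain ⟨k, rfl⟩ : ∃ k', k = k' + 1 := ⟨k - 1, by omega⟩
    obtain ⟨a, rfl⟩ : ∃ a', a = a' + 1 := ⟨a - 1, by omega⟩
    have hch : (k + 1 + (a + 1)).choose (a + 1) =
        (k + (a + 1)).choose (a + 1) + (k + 1 + a).choose a := by
      have h1 : k + 1 + (a + 1) = (k + 1 + a) + 1 := by ring
      rw [h1, Nat.choose_succ_succ, add_comm]
      congr 2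
      ring
    have hFpos : 0 < F.card := by
      have : 0 < (k + 1 + (a + 1)).choose (a + 1) := Nat.choose_pos (by omega)
      omega
    obtain ⟨v, hv⟩ := Finset.card_pos.1 hFpos
    by_cases hN : (k + (a + 1)).choose (a + 1) ≤ (F.filter (fun w => H.Adj v w)).card
    · obtain ⟨I, hI, hind, hc⟩ := ih k (a + 1) (F.filter (fun w => H.Adj v w)) (by omega) (by
        intro T hTF hcl
        have hvT : v ∉ T := by
          intro h
          have := hTF h
          simp at this
        have := hT (insert v T) (by
          intro w hw
          rcases Finset.mem_insert.1 hw with rfl | hw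
          · exact hv
          · exact (Finset.mem_filter.1 (hTF hw)).1) (by
          intro u hu w hw huw
          rcases Finset.mem_insert.1 hu with rfl | hu2
          · rcases Finset.mem_insert.1 hw with rfl | hw
            · exact absurd rfl huw
            · exact (Finset.mem_filter.1 (hTF hw)).2
          · rcases Finset.mem_insert.1 hw with rfl | hw
            · exact ((Finset.mem_filter.1 (hTF hu2)).2).symm
            · exact hcl u hu2 w hw huw)
        rw [Finset.card_insert_of_notMem hvT] at this
        omega) hN
      exact ⟨I, hI.trans (Finset.filter_subset _ _), hind, hc⟩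
    · have hcard : (F.filter (fun w => H.Adj v w)).card +
          ((F.erase v).filter (fun w => ¬ H.Adj v w)).card + 1 = F.card := by
        have h1 := Finset.card_filter_add_card_filter_not (s := F) (p := fun w => H.Adj v w)
        have h2 : (F.erase v).filter (fun w => ¬ H.Adj v w) =
            (F.filter (fun w => ¬ H.Adj v w)).erase v := by
          rw [Finset.filter_erase]
        have h3 : v ∈ F.filter (fun w => ¬ H.Adj v w) := by simp [hv]
        rw [h2]
        have h4 := Finset.card_erase_add_one h3
        omega
      obtain ⟨I, hI, hind, hc⟩ := ih (k + 1) a ((F.erase v).filter (fun w => ¬ H.Adj v w)) (by omega)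
        (by
          intro T hTF hcl
          exact hT T (fun w hw => Finset.mem_of_mem_erase (Finset.mem_filter.1 (hTF hw)).1) hcl)
        (by
          have : 0 < (k + (a + 1)).choose (a + 1) := Nat.choose_pos (by omega)
          omega)
      have hvI : v ∉ I := by
        intro h
        have := hI h
        simp at this
      refine ⟨insert v I, ?_, ?_, ?_⟩
      · intro w hw
        rcases Finset.mem_insert.1 hw with rfl | hw
        · exact hv
        · exact Finset.mem_of_mem_erase (Finset.mem_filter.1 (hI hw)).1
      · intro u hu w hw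
        rcases Finset.mem_insert.1 hu with rfl | hu2
        · rcases Finset.mem_insert.1 hw with rfl | hw
          · exact H.loopless.irrefl _
          · exact (Finset.mem_filter.1 (hI hw)).2
        · rcases Finset.mem_insert.1 hw with rfl | hw
          · intro h
            exact (Finset.mem_filter.1 (hI hu2)).2 h.symm
          · exact hind u hu2 w hw
      · rw [Finset.card_insert_of_notMem hvI]
        omega

theorem chooseLe : ∀ (a k : ℕ), (k + a).choose a ≤ (k + 1) ^ a := by
  intro a
  induction a with
  | zero => intro k; simp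
  | succ a ih =>
    intro k
    have h1 : (a + 1) * (k + (a + 1)).choose (a + 1) = (k + (a + 1)) * (k + a).choose a := by
      have := Nat.add_one_mul_choose_eq (k + a) a
      have h2 : k + (a + 1) = k + a + 1 := by ring
      rw [h2, this]
      ring
    have h3 : (k + (a + 1)) * (k + a).choose a ≤ ((a + 1) * (k + 1)) * (k + 1) ^ a :=
      Nat.mul_le_mul (by nlinarith) (ih k)
    have h4 : (a + 1) * (k + (a + 1)).choose (a + 1) ≤ (a + 1) * (k + 1) ^ (a + 1) := by
      rw [h1]
      refine h3.trans (le_of_eq ?_)
      ring
    exact Nat.le_of_mul_le_mul_left h4 (by omega)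

theorem goalRAM : GoalRAM := by
  classical
  intro V H k a F hT hF
  have hT' := hT
  obtain ⟨I, hI, hind, hc⟩ := ramAux H (k + a) k a F rfl hT ((chooseLe a k).trans hF)
  obtain ⟨J, hJ, hJc⟩ := Finset.exists_subset_card_eq (by omega : a ≤ I.card)
  exact ⟨J, hJ.trans hI, fun u hu v hv => hind u (hJ hu) v (hJ hv), hJc⟩

end Pool.Agent.Helper36.Sey2
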